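import Pool.Agent.P.MP_fc4783_an.R.Main

/-!
There is a strictly increasing sequence of integers along which the averages of every 2-step
nilsequence converge, while the double averages of some bounded functions in some invertible
measure preserving system do not converge in the mean.
-/

namespace Pool.Agent.Results.MP_fc4783_an.Increasing

open Filter Topology MeasureTheory

/-- `F` is Riemann integrable on the orbit closure `O` of `y` under `b`: it is bounded, and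
continuous on `O` at almost every point for a `b`-invariant Borel probability measure carried by
`O`. -/
def RiemannOnOrbit {G : Type} [Group G] [TopologicalSpace G] (Γ : Subgroup G) (b : G)
    (y : G ⧸ Γ) (F : G ⧸ Γ → ℂ) : Prop :=
  (∃ C : ℝ, ∀ z, ‖F z‖ ≤ C) ∧
    ∃ (_ : MeasurableSpace (G ⧸ Γ)) (_ : BorelSpace (G ⧸ Γ)) (m : Measure (G ⧸ Γ)),
      IsProbabilityMeasure m ∧ MeasurePreserving (fun z => b • z) m m ∧
      m (closure (Set.range fun k : ℤ => b ^ k • y))ᶜ = 0 ∧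
      ∀ᵐ z ∂m, ContinuousWithinAt F (closure (Set.range fun k : ℤ => b ^ k • y)) z

/-- Basic 2-step nilsequences `k ↦ F (b ^ k • y)`: `G` is a real Lie group (Hausdorff, second
countable, finite dimensional, not necessarily connected), nilpotent of step at most two, `Γ` is a
discrete cocompact subgroup, and `F` is continuous or Riemann integrable on the orbit closure. -/
def IsBasicNil (ψ : ℤ → ℂ) : Prop :=
  ∃ (d : ℕ) (G : Type) (_ : Group G) (_ : TopologicalSpace G) (_ : T2Space G)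
    (_ : SecondCountableTopology G) (_ : ChartedSpace (EuclideanSpace ℝ (Fin d)) G)
    (_ : LieGroup (modelWithCornersSelf ℝ (EuclideanSpace ℝ (Fin d))) ((⊤ : ℕ∞) : WithTop ℕ∞) G)
    (Γ : Subgroup G) (b : G) (y : G ⧸ Γ) (F : G ⧸ Γ → ℂ),
    Group.IsNilpotent G ∧ Group.nilpotencyClass G ≤ 2 ∧ DiscreteTopology Γ ∧
      CompactSpace (G ⧸ Γ) ∧ (Continuous F ∨ RiemannOnOrbit Γ b y F) ∧
      ∀ k : ℤ, ψ k = F (b ^ k • y)

/-- 2-step nilsequences: uniform limits of basic 2-step nilsequences. -/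
def IsNil (ψ : ℤ → ℂ) : Prop :=
  ∀ ε : ℝ, 0 < ε → ∃ φ : ℤ → ℂ, IsBasicNil φ ∧ ∀ k, ‖ψ k - φ k‖ ≤ ε

open Pool.Agent.P.MP_fc4783_an in
theorem result : ∃ a : ℕ → ℤ, StrictMono a ∧ 0 ≤ a 0 ∧
    (∀ ψ : ℤ → ℂ, IsNil ψ → ∃ l : ℂ,
      Tendsto (fun N : ℕ => (N : ℂ)⁻¹ * ∑ n ∈ Finset.Icc 1 N, ψ (a n)) atTop (𝓝 l)) ∧
    ∃ (X : Type) (_ : MeasurableSpace X) (μ : Measure X) (T : X ≃ᵐ X) (f g : X → ℂ),
      IsProbabilityMeasure μ ∧ MeasurePreserving T μ μ ∧ MeasurePreserving T.symm μ μ ∧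
      MemLp f ⊤ μ ∧ MemLp g ⊤ μ ∧
      ¬ ∃ h : X → ℂ, MemLp h 2 μ ∧ Tendsto (fun N : ℕ => eLpNorm (fun x =>
        (N : ℂ)⁻¹ * ∑ n ∈ Finset.Icc 1 N,
          f ((T.toEquiv ^ a n) x) * g ((T.toEquiv ^ (2 * a n)) x) - h x) 2 μ) atTop (𝓝 0) := by
  obtain ⟨a, h1, h2, h3, h4⟩ := inc_main_thm
  refine ⟨a, h1, h2, fun ψ hψ => ces_approx a ψ fun ε hε => ?_, h4⟩
  obtain ⟨φ, ⟨d, G, _, _, _, _, _, _, Γ, b, y, F, a1, a2, a3, a4, a5, a6⟩, hφ⟩ := hψ ε hε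
  obtain rfl : φ = fun k => F (b ^ k • y) := funext a6
  exact ⟨_, h3 d G Γ b y F a1 a2 a3 a4 a5, hφ⟩

/-- Not part of the result: why `F` cannot be just Riemann integrable for the Haar measure of the
whole nilmanifold. Every bounded sequence has that form. -/
theorem literal_reading_degenerate (ψ : ℤ → ℂ) (C : ℝ) (hψ : ∀ k, ‖ψ k‖ ≤ C) :
    ∃ (d : ℕ) (G : Type) (_ : Group G) (_ : TopologicalSpace G) (_ : T2Space G)
      (_ : SecondCountableTopology G) (_ : ChartedSpace (EuclideanSpace ℝ (Fin d)) G)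
      (_ : LieGroup (modelWithCornersSelf ℝ (EuclideanSpace ℝ (Fin d))) ((⊤ : ℕ∞) : WithTop ℕ∞) G)
      (Γ : Subgroup G) (b : G) (y : G ⧸ Γ) (F : G ⧸ Γ → ℂ),
      Group.IsNilpotent G ∧ Group.nilpotencyClass G ≤ 2 ∧ DiscreteTopology Γ ∧
        CompactSpace (G ⧸ Γ) ∧ ((∃ C : ℝ, ∀ z, ‖F z‖ ≤ C) ∧
          ∃ (_ : MeasurableSpace (G ⧸ Γ)) (_ : BorelSpace (G ⧸ Γ)) (m : Measure (G ⧸ Γ)),
            IsProbabilityMeasure m ∧ (∀ g : G, MeasurePreserving (fun z => g • z) m m) ∧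
            ∀ᵐ z ∂m, Tendsto F (𝓝 z) (𝓝 (F z))) ∧
        ∀ k : ℤ, ψ k = F (b ^ k • y) :=
  Pool.Agent.P.MP_fc4783_an.lit_all ψ C hψ

/-- Not part of the result: for the class of all bounded sequences the implication of Q1 is the
bounded convergence theorem. -/
theorem literal_reading_trivial (a : ℕ → ℤ)
    (ha : ∀ (ψ : ℤ → ℂ) (C : ℝ), (∀ k, ‖ψ k‖ ≤ C) → ∃ l : ℂ,
      Tendsto (fun N : ℕ => (N : ℂ)⁻¹ * ∑ n ∈ Finset.Icc 1 N, ψ (a n)) atTop (𝓝 l))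
    (X : Type) [MeasurableSpace X] (μ : Measure X) [IsProbabilityMeasure μ] (T : X ≃ᵐ X)
    (hT : MeasurePreserving T μ μ) (f g : X → ℂ) (hf : MemLp f ⊤ μ) (hg : MemLp g ⊤ μ) :
    ∃ h : X → ℂ, MemLp h 2 μ ∧ Tendsto (fun N : ℕ => eLpNorm (fun x =>
      (N : ℂ)⁻¹ * ∑ n ∈ Finset.Icc 1 N,
        f ((T.toEquiv ^ a n) x) * g ((T.toEquiv ^ (2 * a n)) x) - h x) 2 μ) atTop (𝓝 0) :=
  Pool.Agent.P.MP_fc4783_an.lit_conv a ha μ T hT f g hf hg

end Pool.Agent.Results.MP_fc4783_an.Increasing
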